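import Mathlib
import Pool.Agent.H12x.VW.Fus

/-!
# One sequence of variable words for all finite systems of maps `x ↦ a + d x`

The pair `(a, d)` stands for the map `x ↦ a + d x`. Let `A` be a finite alphabet. A variable word is a word with letters in
`A` and in which the variable `*` (`none` below) occurs; `w[x]` is the word which results if the letter `x` is
substituted for the variable. If each letter `x` stands for a map `T x`, then a word stands for the composition of the
maps of its letters, the first letter first.

Theorem. For every `A` there is ONE sequence `w_0, w_1, w_2, ...` of variable words such that for EVERY family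
`(T x)`, `x ∈ A`, of maps all of whose compositions have coprime pairs `(a, d)` with `d ≥ 1` and are not the identity,
there is an index `ρ` such that for ALL letters `x_1, x_2, ...` and all `ρ ≤ m_1 < m_2 < ... < m_k` (all `k`) there are
infinitely many primes `q` for which the numbers

`S_1 q, S_2 S_1 q, ..., S_k ... S_2 S_1 q`,   `S_i =` the map of the word `w_(m_i)[x_i]`,

are all primes, whereas the values at `q` of the members of any given finite set of other maps (except the identity)
are not primes. (More generally, the words `w_m[x]` can be grouped: below, finite sets `α_0 < α_1 < ...` take the place of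
the `m_i`.) The maps `T x` need not commute.

Examples. (1) `T x = (x, b)` for digits `x` prime to `b`: the map appends the digit `x` in base `b`; for all the bases `b`
and all the sets of digits prime to `b` with `|A|` elements there are infinitely many primes `q` which remain prime if
the words `w_(m_1)[x_1], w_(m_2)[x_2], ...` are appended one after the other. (2) `|A| = 1`: exponents which serve all maps.

Proof. Carlson's theorem on variable words has a proof by ultrafilters: there are a minimal idempotent ultrafilter `p` on
the words and an ultrafilter `r` on the variable words which all the substitutions map to `p`. The residues modulo a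
prime of the maps along `p` converge to an idempotent, which gives the local conditions; the rank argument of
`Pool.Agent.H12x.UF` for trees of prime patterns works along `p` (`Pool.Agent.H12x.VW.treeM`), and the variable words are
chosen inside countably many trees. The prime number input is the theorem on infinite exact prime patterns in
sequences of linear forms of the starting files (`Pool.Agent.N790.IA.classes`).
-/

set_option autoImplicit false

namespace Pool.Agent.Results.MP_8bf9c2_nt.VariableWords

open Finset

/-- the composition `g ∘ f`, where `(a, d)` stands for the map `x ↦ a + d x` -/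
def comp (g f : ℤ × ℤ) : ℤ × ℤ := (g.1 + g.2 * f.1, g.2 * f.2)

/-- the composition of the maps of the letters of the word `u`, the first letter first -/
def word {A : Type} (T : A → ℤ × ℤ) (u : List A) : ℤ × ℤ := u.foldl (fun f x => comp (T x) f) (0, 1)

/-- the concatenation, for `m ∈ β` in increasing order, of the words `w m`, in which the letter `a m` is substituted for
the variable `none` -/
def subst {A : Type} (w : ℕ → List (Option A)) (a : ℕ → A) (β : Finset ℕ) : List A :=
  if h : β.Nonempty then subst w a (β.erase (β.max' h)) ++ (w (β.max' h)).map (fun x => x.getD (a (β.max' h))) else []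
termination_by β.card
decreasing_by exact Finset.card_erase_lt_of_mem (max'_mem _ _)

/-- a sequence of successive nonempty finite sets `H 0 < H 1 < ...` -/
def Blocks (H : ℕ → Finset ℕ) : Prop := (∀ m, (H m).Nonempty) ∧ ∀ m, ∀ i ∈ H m, ∀ j ∈ H (m + 1), i < j

/-- the map `g` has a prime value at `q` -/
def PrimeAt (g : ℤ × ℤ) (q : ℕ) : Prop := (g.1 + g.2 * q).toNat.Prime

/-- there are infinitely many primes `q` at which the maps `f 0, ..., f (L - 1)` have prime values, whereas those of any
given finite set of other maps (except the identity) do not have prime values -/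
def Exact (L : ℕ) (f : ℕ → ℤ × ℤ) : Prop :=
  ∀ S : Finset (ℤ × ℤ), (∀ g ∈ S, 1 ≤ g.2 ∧ g ≠ (0, 1) ∧ ∀ l < L, g ≠ f l) →
    {q : ℕ | q.Prime ∧ (∀ l < L, PrimeAt (f l) q) ∧ ∀ g ∈ S, ¬ PrimeAt g q}.Infinite

variable {A : Type}

theorem comp_assoc (h g f : ℤ × ℤ) : comp (comp h g) f = comp h (comp g f) := by
  unfold comp
  ext <;> simp only <;> ring

theorem foldl_eq (T : A → ℤ × ℤ) (u : List A) (f : ℤ × ℤ) :
    u.foldl (fun f x => comp (T x) f) f = comp (word T u) f := by
  induction u generalizing f with
  | nil =>
    unfold word comp
    simp
  | cons x u ih =>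
    have h1 : word T (x :: u) = comp (word T u) (T x) := by
      unfold word
      rw [List.foldl_cons, ih]
      unfold word comp
      simp
    rw [List.foldl_cons, ih, h1, comp_assoc]

theorem word_append (T : A → ℤ × ℤ) (u v : List A) : word T (u ++ v) = comp (word T v) (word T u) := by
  conv_lhs => unfold word
  rw [List.foldl_append, foldl_eq]
  rfl

/-- the system of maps satisfies the hypothesis -/
def Hyp (T : A → ℤ × ℤ) : Prop :=
  ∀ u : List A, u ≠ [] → 1 ≤ (word T u).2 ∧ IsCoprime (word T u).1 (word T u).2 ∧ word T u ≠ (0, 1)

theorem act {T : A → ℤ × ℤ} (hT : Hyp T) : Pool.Agent.H12x.VW.Act (fun s : FreeMonoid A => (word T s.toList).swap) where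
  one := rfl
  mul s t := by
    simp only [FreeMonoid.toList_mul, word_append]
    unfold comp Pool.Agent.H12x.NC.cmp
    ext
    · simp only [Prod.fst_swap]
    · simp only [Prod.snd_swap, Prod.fst_swap]
      ring
  pos s := by
    change 1 ≤ (word T s.toList).2
    rcases eq_or_ne s.toList [] with h | h
    · rw [h]
      exact le_rfl
    · exact (hT _ h).1
  cop s := by
    change IsCoprime (word T s.toList).2 (word T s.toList).1
    rcases eq_or_ne s.toList [] with h | h
    · rw [h]
      exact isCoprime_one_left
    · exact (hT _ h).2.1.symm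

theorem subst_eq (w : ℕ → FreeMonoid (Option A)) (a : ℕ → A) (β : Finset ℕ) :
    subst (fun m => (w m).toList) a β =
      (Pool.Agent.H12x.VW.pM (fun i => Pool.Agent.H12x.VW.sub (a i) (w i)) β).toList := by
  induction β using Finset.induction_on_max with
  | empty =>
    rw [Pool.Agent.H12x.VW.pM_empty, subst]
    simp
  | insert m β hmax ih =>
    have hm : m ∉ β := fun h1 => lt_irrefl _ (hmax m h1)
    have hmax' : (insert m β).max' (insert_nonempty m β) = m := by
      apply le_antisymm
      · apply max'_le
        intro i hi
        rcases mem_insert.1 hi with rfl | h1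
        · exact le_rfl
        · exact (hmax i h1).le
      · exact le_max' _ _ (mem_insert_self _ _)
    rw [Pool.Agent.H12x.VW.pM_insert _ hmax, subst, dif_pos (insert_nonempty m β), hmax', erase_insert hm, ih,
      FreeMonoid.toList_mul]
    rfl

theorem blocks_succ {H : ℕ → Finset ℕ} (h : Blocks H) : Pool.Agent.H12x.NC.Succ H :=
  Pool.Agent.H12x.NC.Succ.of_blocks h

theorem exact_of {L : ℕ} {f : ℕ → ℤ × ℤ} (h : Pool.Agent.H12x.VW.ExM ((range L).image (fun l => (f l).swap))) :
    Exact L f := by
  intro S hS
  have h1 := h (S.image Prod.swap) (by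
    intro g hg
    obtain ⟨g', hg', rfl⟩ := mem_image.1 hg
    obtain ⟨h2, h3, h4⟩ := hS g' hg'
    refine ⟨h2, fun h5 => ?_⟩
    rcases mem_insert.1 h5 with h6 | h6
    · exact h3 (Prod.swap_injective (h6.trans rfl))
    · obtain ⟨l, hl, h7⟩ := mem_image.1 h6
      exact h4 l (mem_range.1 hl) (Prod.swap_injective h7.symm))
  refine Set.Infinite.mono ?_ h1
  intro q hq
  refine ⟨?_, fun l hl => ?_, fun g hg => ?_⟩
  · have := hq.1 (1, 0) (mem_insert_self _ _)
    simpa using this
  · have h2 := hq.1 (f l).swap (mem_insert_of_mem (mem_image_of_mem _ (mem_range.2 hl)))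
    unfold PrimeAt
    rw [add_comm]
    exact h2
  · have h2 := hq.2 g.swap (mem_image_of_mem _ hg)
    unfold PrimeAt
    rw [add_comm]
    exact h2

theorem word_one (u : List A) : word (fun _ => ((1 : ℤ), (1 : ℤ))) u = ((u.length : ℤ), (1 : ℤ)) := by
  induction u using List.reverseRecOn with
  | nil => rfl
  | append_singleton u x ih =>
    rw [word_append, ih]
    unfold word comp
    simp only [List.foldl_cons, List.foldl_nil, List.length_append, List.length_cons, List.length_nil]
    ext
    · push_cast
      ring
    · simp

theorem result (A : Type) [Fintype A] [Nonempty A] : ∃ w : ℕ → List (Option A), (∀ m, none ∈ w m) ∧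
    ∀ T : A → ℤ × ℤ, (∀ u : List A, u ≠ [] →
        1 ≤ (word T u).2 ∧ IsCoprime (word T u).1 (word T u).2 ∧ word T u ≠ (0, 1)) →
      ∃ ρ : ℕ, ∀ (a : ℕ → A) (α : ℕ → Finset ℕ), Blocks α → (∀ i ∈ α 0, ρ ≤ i) → ∀ L : ℕ,
        Exact L (fun l => word T (subst w a ((range (l + 1)).biUnion α))) := by
  classical
  have hdef : Hyp (fun _ : A => ((1 : ℤ), (1 : ℤ))) := by
    intro u hu
    rw [word_one]
    refine ⟨le_rfl, isCoprime_one_right, fun h => ?_⟩
    have h1 := (Prod.ext_iff.1 h).1
    simp only at h1
    exact hu (List.length_eq_zero_iff.1 (by exact_mod_cast h1))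
  obtain ⟨f, hf⟩ : ∃ f : ℕ → (A → ℤ × ℤ), Function.Surjective f := exists_surjective_nat _
  set T : ℕ → A → ℤ × ℤ := fun ρ => if Hyp (f ρ) then f ρ else fun _ => (1, 1) with hT
  have hTh : ∀ ρ, Hyp (T ρ) := by
    intro ρ
    simp only [hT]
    split_ifs with h
    · exact h
    · exact hdef
  obtain ⟨w, hw, h⟩ := Pool.Agent.H12x.VW.mainL (A := A) (fun ρ s => (word (T ρ) s.toList).swap)
    (fun ρ => act (hTh ρ)) (fun ρ s hs h => by
      rw [Pool.Agent.H12x.VW.ne_one_iff] at hs
      exact (hTh ρ _ hs).2.2 (Prod.swap_injective (h.trans rfl)))
  refine ⟨fun m => (w m).toList, hw, fun T' hT' => ?_⟩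
  obtain ⟨ρ, hρ⟩ := hf T'
  have hTρ : T ρ = T' := by
    simp only [hT, hρ]
    exact if_pos hT'
  refine ⟨ρ, fun a α hα hαρ L => exact_of ?_⟩
  have h1 := h ρ a α (blocks_succ hα) hαρ L
  simp only [hTρ, ← subst_eq] at h1
  exact h1

end Pool.Agent.Results.MP_8bf9c2_nt.VariableWords
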